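import Mathlib

/-! The divisor bound (copied from Lib_helper68/SEL/KA.lean). -/

set_option autoImplicit false

namespace Pool.Agent.FG61

open Finset

theorem DivB_card {n : ℕ} (hn : 0 < n) :
    n.divisors.card = ∏ p ∈ n.primeFactors, (n.factorization p + 1) :=
  Nat.card_divisors hn.ne'

theorem DivB_rpow {n : ℕ} (hn : 0 < n) (ε : ℝ) :
    (n : ℝ) ^ ε = ∏ p ∈ n.primeFactors, ((p : ℝ) ^ ε) ^ (n.factorization p) := by
  have h1 : (n : ℝ) = ∏ p ∈ n.primeFactors, (p : ℝ) ^ (n.factorization p) := by
    have h2 := Nat.prod_factorization_pow_eq_self hn.ne'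
    conv_lhs => rw [← h2]
    rw [Finsupp.prod, Nat.support_factorization]
    push_cast
    rfl
  conv_lhs => rw [h1]
  rw [← Real.finsetProd_rpow _ _ (fun p _ => by positivity)]
  refine Finset.prod_congr rfl fun p _ => ?_
  rw [← Real.rpow_natCast, ← Real.rpow_mul (by positivity), ← Real.rpow_natCast,
    ← Real.rpow_mul (by positivity), mul_comm]

theorem divisor_bound {ε : ℝ} (hε : 0 < ε) : ∃ C : ℝ, 0 < C ∧
    ∀ n : ℕ, 0 < n → (n.divisors.card : ℝ) ≤ C * (n : ℝ) ^ ε := by
  set B : ℕ := ⌈(2 : ℝ) ^ (1 / ε)⌉₊ with hB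
  set K : ℝ := 1 + 1 / (ε * Real.log 2) with hK
  have hl2 : 0 < Real.log 2 := Real.log_pos (by norm_num)
  have hK1 : 1 ≤ K := by
    have : 0 < 1 / (ε * Real.log 2) := by positivity
    linarith
  refine ⟨K ^ B, by positivity, fun n hn => ?_⟩
  rw [DivB_card hn, DivB_rpow hn ε]
  push_cast
  have hstep : ∀ p ∈ n.primeFactors, ((n.factorization p : ℝ) + 1) ≤
      (if p < B then K else 1) * ((p : ℝ) ^ ε) ^ (n.factorization p) := by
    intro p hp
    have hpp := Nat.prime_of_mem_primeFactors hp
    have hp2 : (2 : ℝ) ≤ p := by exact_mod_cast hpp.two_le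
    set e := n.factorization p with he
    by_cases hpB : p < B
    · rw [if_pos hpB]
      have h1 : (1 : ℝ) + e * (ε * Real.log 2) ≤ ((p : ℝ) ^ ε) ^ e := by
        calc (1 : ℝ) + e * (ε * Real.log 2) ≤ Real.exp (e * (ε * Real.log 2)) := by
              rw [add_comm]; exact Real.add_one_le_exp _
          _ = ((2 : ℝ) ^ ε) ^ e := by
              rw [← Real.rpow_natCast, ← Real.rpow_mul (by norm_num),
                Real.rpow_def_of_pos (by norm_num)]
              congr 1; ring
          _ ≤ ((p : ℝ) ^ ε) ^ e := by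
              refine pow_le_pow_left₀ (by positivity) ?_ _
              exact Real.rpow_le_rpow (by norm_num) hp2 hε.le
      calc (e : ℝ) + 1 ≤ K * (1 + e * (ε * Real.log 2)) := by
            rw [hK]
            have h2 : 0 ≤ (e : ℝ) * (ε * Real.log 2) := by positivity
            have h3 : 1 / (ε * Real.log 2) * (e * (ε * Real.log 2)) = e := by
              field_simp
            have h4 : 0 < 1 / (ε * Real.log 2) := by positivity
            nlinarith
        _ ≤ K * ((p : ℝ) ^ ε) ^ e := by gcongr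
    · rw [if_neg hpB, one_mul]
      push Not at hpB
      have h1 : (2 : ℝ) ≤ (p : ℝ) ^ ε := by
        have h2 : (2 : ℝ) ^ (1 / ε) ≤ p := (Nat.le_ceil _).trans (by exact_mod_cast hpB)
        calc (2 : ℝ) = ((2 : ℝ) ^ (1 / ε)) ^ ε := by
              rw [← Real.rpow_mul (by norm_num), one_div_mul_cancel hε.ne', Real.rpow_one]
          _ ≤ (p : ℝ) ^ ε := Real.rpow_le_rpow (by positivity) h2 hε.le
      calc (e : ℝ) + 1 ≤ 2 ^ e := by exact_mod_cast Nat.lt_two_pow_self
        _ ≤ ((p : ℝ) ^ ε) ^ e := pow_le_pow_left₀ (by norm_num) h1 _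
  calc ∏ p ∈ n.primeFactors, ((n.factorization p : ℝ) + 1)
      ≤ ∏ p ∈ n.primeFactors, ((if p < B then K else 1) * ((p : ℝ) ^ ε) ^ (n.factorization p)) :=
        Finset.prod_le_prod (fun p _ => by positivity) hstep
    _ = (∏ p ∈ n.primeFactors, (if p < B then K else 1)) *
          ∏ p ∈ n.primeFactors, ((p : ℝ) ^ ε) ^ (n.factorization p) := Finset.prod_mul_distrib
    _ ≤ K ^ B * ∏ p ∈ n.primeFactors, ((p : ℝ) ^ ε) ^ (n.factorization p) := by
        refine mul_le_mul_of_nonneg_right ?_ (Finset.prod_nonneg fun p _ => by positivity)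
        rw [Finset.prod_ite, Finset.prod_const, Finset.prod_const_one, mul_one]
        refine pow_le_pow_right₀ hK1 ?_
        calc (n.primeFactors.filter (fun p => p < B)).card ≤ (Finset.range B).card :=
              Finset.card_le_card fun p hp => Finset.mem_range.mpr (Finset.mem_filter.mp hp).2
          _ = B := Finset.card_range B


end Pool.Agent.FG61
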