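import Mathlib
import Pool.Agent.Lib_helper35.Var.Exp

/-! MP_5dd4bb_nt: lower bound for the variance of primes in progressions, almost all moduli.
Definitions shared by all blocks. -/

set_option autoImplicit false

namespace Pool.Agent.FG61

open Finset Filter Topology
open Pool.Agent.Var35 (e)

noncomputable section

/-- the Moebius function with real values -/
abbrev mu (n : ℕ) : ℝ := ((ArithmeticFunction.moebius n : ℤ) : ℝ)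

/-- the von Mangoldt function -/
abbrev Lam (n : ℕ) : ℝ := ArithmeticFunction.vonMangoldt n

/-- Euler's function with real values -/
abbrev phi (n : ℕ) : ℝ := ((Nat.totient n : ℕ) : ℝ)

/-- `f_R(n) = ∑_{d ∣ n, d ≤ R} μ(d) log(R/d)` -/
def ff (R : ℝ) (n : ℕ) : ℝ :=
  ∑ d ∈ n.divisors.filter (fun d : ℕ => (d : ℝ) ≤ R), mu d * Real.log (R / d)

/-- Ramanujan coefficients of `f_R` -/
def gam (R r : ℕ) : ℝ :=
  ∑ d ∈ (Icc 1 R).filter (fun d => r ∣ d), mu d * Real.log ((R : ℝ) / d) / d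

/-- Ramanujan sum `c_r(n)` -/
def cc (r n : ℕ) : ℝ := ∑ d ∈ (Nat.gcd r n).divisors, (d : ℝ) * mu (r / d)

/-- the part of `f_R` with denominators at most `K` -/
def gg (K R n : ℕ) : ℝ := ∑ r ∈ Icc 1 K, gam R r * cc r n

/-- the part of `f_R` with denominators in `(K, R]` -/
def bb (K R n : ℕ) : ℝ := ∑ r ∈ Ioc K R, gam R r * cc r n

/-- `A_K(x) = ∑_{m ≤ x, (m,K)=1} μ(m)/m log(x/m)` -/
def AA (K : ℕ) (x : ℝ) : ℝ :=
  ∑ m ∈ (Icc 1 ⌊x⌋₊).filter (fun m => Nat.Coprime m K), mu m / m * Real.log (x / m)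

/-- `κ(K) = ∏_{p ∣ K} (1 - p^(-3/4))⁻¹` -/
def kap (K : ℕ) : ℝ := ∏ p ∈ K.primeFactors, (1 - (p : ℝ) ^ (-(3 / 4 : ℝ)))⁻¹

/-- `G_q(y) = ∑_{e, e' ≤ y} μ(e) μ(e') log(y/e) log(y/e') / [q, e, e']` -/
def GG (q : ℕ) (y : ℝ) : ℝ :=
  ∑ e₁ ∈ Icc 1 ⌊y⌋₊, ∑ e₂ ∈ Icc 1 ⌊y⌋₊,
    mu e₁ * mu e₂ * Real.log (y / e₁) * Real.log (y / e₂) / ((Nat.lcm q (Nat.lcm e₁ e₂) : ℕ) : ℝ)

/-- weight of `q` in the bound for `G_q` -/
def wt (q : ℕ) : ℝ := 4 ^ q.primeFactors.card * kap q ^ 2 / Real.sqrt q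

/-- radical -/
def rad (n : ℕ) : ℕ := ∏ p ∈ n.primeFactors, p

/-- off-diagonal correlation modulo `Q` -/
def off (N Q : ℕ) (F b : ℕ → ℝ) : ℝ :=
  ∑ n ∈ Icc 1 N, ∑ m ∈ (Icc 1 N).filter (fun m => m ≠ n ∧ m % Q = n % Q), F n * b m

/-- the variance `G(X,Q)` -/
def GX (X : ℝ) (Q : ℕ) : ℝ :=
  ∑ a ∈ (range Q).filter (fun a => Nat.Coprime a Q),
    ((∑ n ∈ (Icc 1 ⌊X⌋₊).filter (fun n => n % Q = a), ArithmeticFunction.vonMangoldt n)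
      - X / (Nat.totient Q : ℝ)) ^ 2

end

end Pool.Agent.FG61
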